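import Pool.Agent.MEternal.Hard

/-!
# MP_7f5e5b_lc: M-ETERNAL DOMINATION is EXPTIME-hard

Definitions of the statement: `Pool/Agent/MEternal/Defs.lean` (configurations, strategies, the
m-eternal domination number) and `Pool/Agent/MEternal/Language.lean` (the encoding of instances,
the language `MED`, the class `EXPTIME`).
-/

namespace Pool.Agent.Results.MP_7f5e5b_lc.ExptimeHard

open Pool.Agent.MEternal

/-- Every language in EXPTIME is many-one reducible to M-ETERNAL DOMINATION in polynomial time. -/
theorem result : ∀ L ∈ EXPTIME, ∃ f : List Bool → List Bool,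
    Nonempty (Turing.TM2ComputableInPolyTime (id : List Bool → List Bool)
      (id : List Bool → List Bool) f) ∧ ∀ w, w ∈ L ↔ f w ∈ MED :=
  fun L hL => med_hard L hL

end Pool.Agent.Results.MP_7f5e5b_lc.ExptimeHard
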